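import Pool.Agent.H834R6.CC.Main
import Pool.Agent.Y873.CC.Num

/-!
# Unlocking polygonal chains in space by cutting at vertices: an explicit error term

For every `n`-link chain in three-space one may cut at some vertices so that the pieces can be
separated and straightened. The least number `cutNumber n` of cuts that suffices for all `n`-link
chains is `n / 2` up to an error of at most `12000000 n (log log n)² / log n`, for every `n ≥ 16`.
-/

set_option autoImplicit false
set_option maxHeartbeats 4000000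

namespace Pool.Agent.Results.MP_09cb38_co.ExplicitError

open Set Filter Topology

/-- `v 0, …, v n` are the vertices of a non-self-intersecting chain with `n` links in three-space:
all links have positive length, links that are not consecutive are disjoint, and consecutive links
meet only in their common vertex. -/
structure IsChain (n : ℕ) (v : ℕ → EuclideanSpace ℝ (Fin 3)) : Prop where
  pos : ∀ i, i < n → v i ≠ v (i + 1)
  far : ∀ i j, i + 1 < j → j < n →
    Disjoint (segment ℝ (v i) (v (i + 1))) (segment ℝ (v j) (v (j + 1)))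
  near : ∀ i, i + 1 < n →
    segment ℝ (v i) (v (i + 1)) ∩ segment ℝ (v (i + 1)) (v (i + 2)) = {v (i + 1)}

/-- The segments from `s i` to `e i`, `i < n`, are the links of the pieces of an `n`-link chain that
was cut at the interior vertices in `C`. Link `i` and link `i + 1` share a joint if `i + 1` is not in
`C`. Every piece is non-self-intersecting and different pieces are disjoint. -/
structure IsPieces (n : ℕ) (C : Finset ℕ) (s e : ℕ → EuclideanSpace ℝ (Fin 3)) : Prop where
  joint : ∀ i, i + 1 < n → i + 1 ∉ C → e i = s (i + 1)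
  near : ∀ i, i + 1 < n → i + 1 ∉ C →
    segment ℝ (s i) (e i) ∩ segment ℝ (s (i + 1)) (e (i + 1)) = {e i}
  cut : ∀ i, i + 1 < n → i + 1 ∈ C →
    Disjoint (segment ℝ (s i) (e i)) (segment ℝ (s (i + 1)) (e (i + 1)))
  far : ∀ i j, i + 1 < j → j < n →
    Disjoint (segment ℝ (s i) (e i)) (segment ℝ (s j) (e j))

/-- After cutting the `n`-link chain `v` at the vertices in `C`, the pieces can be separated and
straightened: for every `d > 0` there is a continuous motion of the pieces on the time interval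
`[0, 1]` which starts at the given position, preserves the length of every link, is such that at all
times in `(0, 1]` the pieces are non-self-intersecting and pairwise disjoint, and which ends in a
position where every piece is a straight segment and any two points of different pieces have distance
at least `d`. -/
def Unlockable (n : ℕ) (C : Finset ℕ) (v : ℕ → EuclideanSpace ℝ (Fin 3)) : Prop :=
  ∀ d : ℝ, 0 < d → ∃ s e : ℝ → ℕ → EuclideanSpace ℝ (Fin 3),
    (∀ i, i < n → ContinuousOn (fun t => s t i) (Icc 0 1)) ∧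
    (∀ i, i < n → ContinuousOn (fun t => e t i) (Icc 0 1)) ∧
    (∀ i, i < n → s 0 i = v i ∧ e 0 i = v (i + 1)) ∧
    (∀ t ∈ Icc (0 : ℝ) 1, ∀ i, i < n → dist (s t i) (e t i) = dist (v i) (v (i + 1))) ∧
    (∀ t ∈ Ioc (0 : ℝ) 1, IsPieces n C (s t) (e t)) ∧
    (∀ i, i + 1 < n → i + 1 ∉ C → SameRay ℝ (e 1 i - s 1 i) (e 1 (i + 1) - s 1 (i + 1))) ∧
    (∀ i j k, i < k → k ≤ j → j < n → k ∈ C →
      ∀ x ∈ segment ℝ (s 1 i) (e 1 i), ∀ y ∈ segment ℝ (s 1 j) (e 1 j), d ≤ dist x y)

/-- the numbers `k` such that every `n`-link chain can be cut at some `k` of its interior vertices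
`v 1, …, v (n - 1)` so that the resulting pieces can be separated and straightened -/
def CutNumbers (n : ℕ) : Set ℕ :=
  {k | ∀ v : ℕ → EuclideanSpace ℝ (Fin 3), IsChain n v →
    ∃ C : Finset ℕ, C ⊆ Finset.Ioo 0 n ∧ C.card = k ∧ Unlockable n C v}

/-- the least such number -/
noncomputable def cutNumber (n : ℕ) : ℕ := sInf (CutNumbers n)

theorem isChain_iff (n : ℕ) (v : ℕ → EuclideanSpace ℝ (Fin 3)) :
    H834R6.CC.IsChain n v ↔ IsChain n v :=
  ⟨fun h => ⟨h.1, h.2, h.3⟩, fun h => ⟨h.1, h.2, h.3⟩⟩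

theorem isPieces_iff (n : ℕ) (C : Finset ℕ) (s e : ℕ → EuclideanSpace ℝ (Fin 3)) :
    H834R6.CC.IsPieces n C s e ↔ IsPieces n C s e :=
  ⟨fun h => ⟨h.1, h.2, h.3, h.4⟩, fun h => ⟨h.1, h.2, h.3, h.4⟩⟩

theorem unlockable_iff (n : ℕ) (C : Finset ℕ) (v : ℕ → EuclideanSpace ℝ (Fin 3)) :
    H834R6.CC.Unlockable n C v ↔ Unlockable n C v := by
  unfold H834R6.CC.Unlockable Unlockable
  simp only [isPieces_iff]

theorem cutNumbers_eq (n : ℕ) : H834R6.CC.CutNumbers n = CutNumbers n := by
  unfold H834R6.CC.CutNumbers CutNumbers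
  simp only [isChain_iff, unlockable_iff]

theorem cutNumber_eq (n : ℕ) : H834R6.CC.f n = cutNumber n := by
  unfold H834R6.CC.f cutNumber
  rw [cutNumbers_eq]

/-- The least number `f(n)` of cuts exists; `f(n) ≤ ⌊(n - 1) / 2⌋` for all `n`; for all `n ≥ 16`
`f(n) ≥ n / 2 - 12000000 n (log log n)² / log n`; for all `k ≥ 2` and `n ≥ 2 ^ (1216 k (κ + 11)²)`, where
`k ≤ 2 ^ κ`, `f(n) > n / 2 - n / k`; in particular `f(n) / n → 1 / 2`. -/
theorem result :
    (∀ n : ℕ, (CutNumbers n).Nonempty ∧ cutNumber n ≤ (n - 1) / 2) ∧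
      (∀ n : ℕ, 16 ≤ n →
        (n : ℝ) / 2 - 12000000 * (Real.log (Real.log n) ^ 2 / Real.log n) * n ≤ (cutNumber n : ℝ)) ∧
      (∀ k κ n : ℕ, 2 ≤ k → k ≤ 2 ^ κ → 2 ^ (1216 * k * (κ + 11) ^ 2) ≤ n →
        (1 / 2 - 1 / (k : ℝ)) * n < (cutNumber n : ℝ)) ∧
      Tendsto (fun n : ℕ => (cutNumber n : ℝ) / n) atTop (𝓝 (1 / 2)) := by
  have h := H834R6.CC.main
  simp only [cutNumbers_eq, cutNumber_eq] at h
  refine ⟨h.1, fun n hn => ?_, fun k κ n hk hκ hn => ?_, h.2⟩
  · have := Pool.Agent.Y873.CC.f_lower3 n hn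
    rwa [cutNumber_eq] at this
  · have := Pool.Agent.Y873.CC.f_lower k κ n hk hκ hn
    rwa [cutNumber_eq] at this

end Pool.Agent.Results.MP_09cb38_co.ExplicitError
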